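import Pool.Agent.Hx18.CT.Main

/-!
# The Bloch-Beilinson conjecture in codimension at most two reduces to fourfolds

Setting: Chow groups `C` with rational coefficients of a class of smooth projective varieties (all
the complex ones), a Weil cohomology `H`, and the kernels `N` of the Abel-Jacobi maps. Three known
theorems on complex varieties enter as hypotheses: the theorems of Lefschetz type (with the
spreading-out argument of Bloch and Srinivas) for classes of codimension two on varieties of
dimension at least four, and the lifting of correspondences to surfaces and threefolds along maps
from varieties of dimension at most four.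

* A Bloch-Beilinson filtration exists on the Chow groups of codimension at most two of all the
  varieties if and only if one exists for the varieties of dimension at most four.
* It exists if and only if every correspondence of degree zero from `X` to `Y`, `dim Y ≤ 3` and
  `dim X ≤ dim Y + 1`, which acts as zero on `H^2(X)` acts as zero on the kernel of the Abel-Jacobi
  map on `CH^2(X)`.
* If the classes in the kernel of the Abel-Jacobi map on `CH^2` of a threefold are determined by
  their restrictions to surfaces, the varieties of dimension at most three suffice.
-/

set_option autoImplicit false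

open CategoryTheory AlgebraicGeometry

universe u v w

namespace Pool.Agent.Results.MP_08891c_ag.CodimensionTwo

open Pool.Agent.H914 Pool.Agent.H914.VarClass Pool.Agent.W492.BB Pool.Agent.TH133
  Pool.Agent.Hx18.BB Pool.Agent.Hx18.CT

variable {k : Type u} [Field k] {𝒱 : VarClass k}

/-- **Main theorem.** -/
theorem result (C : TheoryData.{u, v, 0} 𝒱 ℚ) [IsChowProj C] {K : Type w} [Field K]
    (H : WeilTheoryData.{u, v, w} C K) [IsWeilProj H] (N : Family C) (hN : IsAJKernel H N)
    (hL : LefschetzTheorem H) (hT : LiftingTheorem H) :
    (ExistsUpTo H N ⊤ ↔ ExistsUpTo H N 4) ∧
    (ExistsUpTo H N ⊤ ↔ ∀ X Y : 𝒱.Obj, Y.dim ≤ 3 → X.dim ≤ Y.dim + 1 → Star H N X Y) ∧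
    (ExistsUpTo H N 3 → RestrictionInjective N → ExistsUpTo H N ⊤) :=
  main C H N hN hL hT

end Pool.Agent.Results.MP_08891c_ag.CodimensionTwo
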