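import Pool.Agent.Hx18.CI.Main

/-!
# Bloch-Beilinson filtrations on the motives generated by curves and complete intersections

Setting: Chow groups `C` with rational coefficients of a class of smooth projective varieties over
an uncountable algebraically closed field, a Weil cohomology `H`, and the kernels `N` of the
Abel-Jacobi maps. Let `Q V q` imply that `(V, q)` is a block: a motive cut out on a variety `V` of
dimension `m ≥ 2` with cohomology concentrated in degree `m`, such that `Δ_V - q` is a combination
of products `a × b`, and such that the theorem on pencils holds for `V`. The example: `V` is a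
complete intersection in a projective space, or the resolution of one with an ordinary double point,
and `q` is `Δ_V` minus the products of the powers of the hyperplane class (and of the exceptional
divisor). A primitive motive of dimension `n` is a product of motives `h^1(T)` of curves and of
blocks of total dimension `n`.

A Bloch-Beilinson filtration exists on the Chow groups of the varieties whose motives are direct
summands of motives of products of curves and such varieties `V` if and only if, for all `j ≥ 2`,
the Abel-Jacobi map is injective on the cycles of codimension `j` of the primitive motives of the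
single dimension `2 j - 1`. The vanishing of `CH^j` of the primitive motives of dimension `> 2 j`
(for complete intersections, Hartshorne's conjecture), and of its homologically trivial part in
dimension `2 j`, are not assumed: they follow by a descent along the members of pencils.
-/

set_option autoImplicit false

open CategoryTheory AlgebraicGeometry

universe u v w

namespace Pool.Agent.Results.MP_08891c_ag.CompleteIntersections

open Pool.Agent.H914 Pool.Agent.H914.VarClass Pool.Agent.W492.BB Pool.Agent.TH133
  Pool.Agent.Hx18.BB Pool.Agent.Hx18.CI

variable {k : Type u} [Field k] {𝒱 : VarClass k}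

/-- **Main theorem.** -/
theorem result (C : TheoryData.{u, v, 0} 𝒱 ℚ) [IsChowProj C] {K : Type w} [Field K]
    (H : WeilTheoryData.{u, v, w} C K) [IsWeilProj H] (N : Family C) (hN : IsAJKernel H N)
    (Q : ∀ V : 𝒱.Obj, C.A (V.prod V) → Prop) (hQ : ∀ V q, Q V q → IsBlock H Q V q)
    (hfib : FibreTheorem C) :
    (FiltrationExists H Q N ⊤ ⊤ ↔ ∀ j : ℕ, 2 ≤ j → AJInjectiveOn Q N j) ∧
    (∀ J : ℕ, ((∀ j : ℕ, 2 ≤ j → j ≤ 2 * J - 2 → AJInjectiveOn Q N j) →
        FiltrationExists H Q N ⊤ J) ∧
      (FiltrationExists H Q N ⊤ J → ∀ j : ℕ, 2 ≤ j → j ≤ J → AJInjectiveOn Q N j)) ∧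
    (∀ d : ℕ, ((∀ j : ℕ, 2 ≤ j → j ≤ d → AJInjectiveOn Q N j) → FiltrationExists H Q N d ⊤) ∧
      (FiltrationExists H Q N d ⊤ → ∀ j : ℕ, 2 ≤ j → 2 * j ≤ d + 1 → AJInjectiveOn Q N j)) ∧
    (∀ (d J : ℕ∞) (F F' : Filtration C), IsBB H N J (Generated C Q d) F →
      IsBB H N J (Generated C Q d) F' → ∀ X, Generated C Q d X → ∀ j : ℕ, (j : ℕ∞) ≤ J →
        ∀ (ν : ℕ) (z : C.A X), F.Mem j ν z ↔ F'.Mem j ν z) :=
  main C H N hN Q hQ hfib

end Pool.Agent.Results.MP_08891c_ag.CompleteIntersections
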