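import Pool.Agent.Hx18.BB.Main

/-!
# Bloch-Beilinson filtrations on the motives generated by curves and surfaces

Setting: Chow groups `C` with rational coefficients of a class of smooth projective varieties, a
Weil cohomology `H`, and the kernels `N` of the Abel-Jacobi maps. Let `Q S q` imply that `q` is a
projector on the transcendental motive `t_2(S)` of the surface `S`. A primitive motive of weight `n`
is a product `h^1(T_1) ⊗ ⋯ ⊗ h^1(T_s) ⊗ t_2(S_1) ⊗ ⋯ ⊗ t_2(S_r)` with `s + 2 r = n`.

A Bloch-Beilinson filtration exists on the Chow groups of the varieties whose motives are direct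
summands of motives of products of curves and surfaces if and only if, for all `j ≥ 2`, the
Abel-Jacobi map is injective on the cycles of codimension `j` of the primitive motives of the single
weight `2 j - 1`. No vanishing is assumed in the other weights: the vanishing of `CH^j` of the
primitive motives of weight `> 2 j`, and of its homologically trivial part in weight `2 j`, follow
by a descent along the factors.
-/

set_option autoImplicit false

open CategoryTheory AlgebraicGeometry

universe u v w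

namespace Pool.Agent.Results.MP_08891c_ag.CurvesAndSurfaces

open Pool.Agent.H914 Pool.Agent.H914.VarClass Pool.Agent.W492.BB Pool.Agent.TH133
  Pool.Agent.Hx18.BB

variable {k : Type u} [Field k] {𝒱 : VarClass k}

/-- **Main theorem.** -/
theorem result (C : TheoryData.{u, v, 0} 𝒱 ℚ) [IsChowProj C] {K : Type w} [Field K]
    (H : WeilTheoryData.{u, v, w} C K) [IsWeilProj H] (N : Family C) (hN : IsAJKernel H N)
    (Q : ∀ S : 𝒱.Obj, C.A (S.prod S) → Prop) (hQ : ∀ S q, Q S q → IsTrans H S q)
    (hfib : FibreTheorem C) :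
    (BBExists H Q N ⊤ ⊤ ↔ ∀ j : ℕ, 2 ≤ j → AJInjective Q N j) ∧
    (∀ J : ℕ, ((∀ j : ℕ, 2 ≤ j → j ≤ 2 * J - 2 → AJInjective Q N j) → BBExists H Q N ⊤ J) ∧
      (BBExists H Q N ⊤ J → ∀ j : ℕ, 2 ≤ j → j ≤ J → AJInjective Q N j)) ∧
    (∀ d : ℕ, ((∀ j : ℕ, 2 ≤ j → j ≤ d → AJInjective Q N j) → BBExists H Q N d ⊤) ∧
      (BBExists H Q N d ⊤ → ∀ j : ℕ, 2 ≤ j → 2 * j ≤ d + 1 → AJInjective Q N j)) ∧
    (∀ (d J : ℕ∞) (F F' : Filtration C), IsBB H N J (Gen C Q d) F → IsBB H N J (Gen C Q d) F' →
      ∀ X, Gen C Q d X → ∀ j : ℕ, (j : ℕ∞) ≤ J → ∀ (ν : ℕ) (z : C.A X),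
        F.Mem j ν z ↔ F'.Mem j ν z) :=
  main C H N hN Q hQ hfib

end Pool.Agent.Results.MP_08891c_ag.CurvesAndSurfaces
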