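import Pool.Agent.Helper13EV.Main

/-!
# Bloch-Beilinson filtrations on the motives generated by even-dimensional complete intersections

Setting: Chow groups `C` with rational coefficients of a class of smooth projective varieties, a
Weil cohomology `H`, and the kernels `N` of the Abel-Jacobi maps. `Q V q` says that `(V, q)` is a
block: a motive with cohomology in the middle degree `dim V` only, complementary to algebraic classes,
with pencils of sections (primitive motives of complete intersections, transcendental motives `t_2(V)`
of surfaces with `H^1(V) = 0` such as K3 surfaces). Consider the varieties whose motives are direct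
summands of products of blocks of even dimension only (so no curves): products of K3 surfaces,
Hilbert schemes of points on K3 surfaces, cubic fourfolds, their products, etc.

A Bloch-Beilinson filtration exists on the Chow groups of these varieties if and only if for all
`j ≥ 2` the homologically trivial cycles of codimension `j` on the products of dimension exactly
`2 j` of even-dimensional blocks vanish. The odd-dimensional blocks and the curves which occur as
sections of the even-dimensional ones are used in the proof only, and no condition on Abel-Jacobi maps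
or on cycles of products involving them is needed.
-/

set_option autoImplicit false

open CategoryTheory AlgebraicGeometry

universe u v w

namespace Pool.Agent.Results.MP_08891c_ag.EvenDimensional

open Pool.Agent.H914 Pool.Agent.H914.VarClass Pool.Agent.W492.BB Pool.Agent.TH133
  Pool.Agent.Hx18.BB Pool.Agent.Hx18.CI Pool.Agent.Helper13EV

variable {k : Type u} [Field k] {𝒱 : VarClass k}

/-- **Main theorem.** -/
theorem result (C : TheoryData.{u, v, 0} 𝒱 ℚ) [IsChowProj C] {K : Type w} [Field K]
    (H : WeilTheoryData.{u, v, w} C K) [IsWeilProj H] (N : Family C) (hN : IsAJKernel H N)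
    (Q : ∀ V : 𝒱.Obj, C.A (V.prod V) → Prop) (hQ : ∀ V q, Q V q → IsBlock H Q V q)
    (hfib : FibreTheorem C) :
    (EvenFiltrationExists H Q N ⊤ ⊤ ↔ ∀ j : ℕ, 2 ≤ j → MiddleInjective H Q j) ∧
    (∀ J : ℕ, ((∀ j : ℕ, 2 ≤ j → j ≤ 2 * J - 2 → MiddleInjective H Q j) →
        EvenFiltrationExists H Q N ⊤ J) ∧
      (EvenFiltrationExists H Q N ⊤ J → ∀ j : ℕ, 2 ≤ j → j ≤ J → MiddleInjective H Q j)) ∧
    (∀ d : ℕ, ((∀ j : ℕ, 2 ≤ j → j ≤ d → MiddleInjective H Q j) →
        EvenFiltrationExists H Q N d ⊤) ∧
      (EvenFiltrationExists H Q N d ⊤ → ∀ j : ℕ, 2 ≤ j → 2 * j ≤ d → MiddleInjective H Q j)) ∧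
    (∀ (d J : ℕ∞) (F F' : Filtration C), IsBB H N J (EvenGenerated C Q d) F →
      IsBB H N J (EvenGenerated C Q d) F' → ∀ X, EvenGenerated C Q d X → ∀ j : ℕ, (j : ℕ∞) ≤ J →
        ∀ (ν : ℕ) (z : C.A X), F.Mem j ν z ↔ F'.Mem j ν z) :=
  main C H N hN Q hQ hfib

end Pool.Agent.Results.MP_08891c_ag.EvenDimensional
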